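import Pool.Agent.H76.SW.CT

/-!
The evaluation of programs is primitive recursive.
-/

namespace Pool.Agent.H20.SW

open Pool.Agent.H76.SW

open Classical

theorem prim_addRel (h1 : V_SP) :
    Primrec fun p : (ℕ × GrC) × (ℕ × UqC) => addRel p.1.1 p.1.2 p.2.1 p.2.2 := by
  unfold addRel
  refine Primrec.list_append.comp (Primrec.snd.comp Primrec.fst) ?_
  refine Primrec.list_flatMap
    (Primrec.list_range.comp (Primrec.fst.comp Primrec.fst)) ?_
  refine Primrec.list_flatMap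
    (Primrec.list_range.comp (Primrec.fst.comp (Primrec.fst.comp Primrec.fst))) ?_
  -- argument: ((p, u), v)
  have hp : Primrec fun x : (((ℕ × GrC) × (ℕ × UqC)) × ℕ) × ℕ => x.1.1 :=
    Primrec.fst.comp Primrec.fst
  have hu : Primrec fun x : (((ℕ × GrC) × (ℕ × UqC)) × ℕ) × ℕ => x.1.2 :=
    Primrec.snd.comp Primrec.fst
  have hv : Primrec fun x : (((ℕ × GrC) × (ℕ × UqC)) × ℕ) × ℕ => x.2 := Primrec.snd
  have hc : PrimrecPred fun x : (((ℕ × GrC) × (ℕ × UqC)) × ℕ) × ℕ =>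
      UqSat x.1.1.1.1 x.1.1.1.2 x.1.1.2.2 [x.1.2, x.2] := by
    have hf : Primrec fun x : (((ℕ × GrC) × (ℕ × UqC)) × ℕ) × ℕ =>
        ((x.1.1.1, (x.1.1.2.2, [x.1.2, x.2])) : (ℕ × GrC) × (UqC × List ℕ)) := by
      refine Primrec.pair (Primrec.fst.comp hp) (Primrec.pair
        (Primrec.snd.comp (Primrec.snd.comp hp)) ?_)
      exact Primrec.list_cons.comp hu (Primrec.list_cons.comp hv (Primrec.const []))
    exact PrimrecPred.comp (p := fun p : (ℕ × GrC) × (UqC × List ℕ) =>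
      UqSat p.1.1 p.1.2 p.2.1 p.2.2) h1 hf
  refine Primrec.ite hc ?_ (Primrec.const [])
  exact Primrec.list_cons.comp
    (Primrec.pair (Primrec.pair hu (Primrec.fst.comp (Primrec.snd.comp hp))) hv)
    (Primrec.const [])

theorem prim_progE (h1 : V_SP) (a : ℕ) :
    Primrec fun p : (ℕ × GrC) × List UqC => progE p.1.1 a p.1.2 p.2 := by
  unfold progE
  refine Primrec.fst.comp ?_
  refine Primrec.list_foldl (f := fun p : (ℕ × GrC) × List UqC => p.2)
    (g := fun p : (ℕ × GrC) × List UqC => ((p.1.2, a) : GrC × ℕ))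
    (h := fun (p : (ℕ × GrC) × List UqC) (y : (GrC × ℕ) × UqC) =>
      ((addRel p.1.1 y.1.1 y.1.2 y.2, y.1.2 + 1) : GrC × ℕ))
    Primrec.snd (Primrec.pair (Primrec.snd.comp Primrec.fst) (Primrec.const a)) ?_
  have hn : Primrec fun x : ((ℕ × GrC) × List UqC) × ((GrC × ℕ) × UqC) => x.1.1.1 :=
    Primrec.fst.comp (Primrec.fst.comp Primrec.fst)
  have hE : Primrec fun x : ((ℕ × GrC) × List UqC) × ((GrC × ℕ) × UqC) => x.2.1.1 :=
    Primrec.fst.comp (Primrec.fst.comp Primrec.snd)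
  have hl : Primrec fun x : ((ℕ × GrC) × List UqC) × ((GrC × ℕ) × UqC) => x.2.1.2 :=
    Primrec.snd.comp (Primrec.fst.comp Primrec.snd)
  have hQ : Primrec fun x : ((ℕ × GrC) × List UqC) × ((GrC × ℕ) × UqC) => x.2.2 :=
    Primrec.snd.comp Primrec.snd
  have h2 : Primrec fun x : ((ℕ × GrC) × List UqC) × ((GrC × ℕ) × UqC) =>
      addRel x.1.1.1 x.2.1.1 x.2.1.2 x.2.2 :=
    (prim_addRel h1).comp (Primrec.pair (Primrec.pair hn hE) (Primrec.pair hl hQ))
  exact Primrec.pair h2 (Primrec.succ.comp hl)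

theorem pf_CPP (h1 : V_SP) : V_PP := by
  intro a
  unfold PrSat
  have h2 : Primrec fun p : (ℕ × GrC) × (PrC × List ℕ) => progE p.1.1 a p.1.2 p.2.1.1 :=
    (prim_progE h1 a).comp (Primrec.pair Primrec.fst
      (Primrec.fst.comp (Primrec.fst.comp Primrec.snd)))
  have h3 : Primrec fun p : (ℕ × GrC) × (PrC × List ℕ) =>
      (((p.1.1, progE p.1.1 a p.1.2 p.2.1.1), (p.2.1.2, p.2.2)) :
        (ℕ × GrC) × (UqC × List ℕ)) :=
    Primrec.pair (Primrec.pair (Primrec.fst.comp Primrec.fst) h2)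
      (Primrec.pair (Primrec.snd.comp (Primrec.fst.comp Primrec.snd))
        (Primrec.snd.comp Primrec.snd))
  exact PrimrecPred.comp (p := fun p : (ℕ × GrC) × (UqC × List ℕ) =>
    UqSat p.1.1 p.1.2 p.2.1 p.2.2) h1 h3

end Pool.Agent.H20.SW
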