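import Pool.Agent.H76.SW.T

/-! U0 (stw_modules, MP_d2582e_lc), helper20. -/

namespace Pool.Agent.H20.SW

open Pool.Agent.H76.SW Relation

theorem u0_fwd {A Q Q' V : Type} (j : Q → Q') (tr : Q → A × Bool → Q → Prop)
    (tr' : Q' → A × Bool → Q' → Prop) (h1 : ∀ s l t, tr s l t → tr' (j s) l (j t))
    (E : V → A → V → Prop) {x y : V × Q} (h : Reach E tr x y) :
    Reach E tr' (x.1, j x.2) (y.1, j y.2) := by
  unfold Reach at h ⊢
  induction h with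
  | refl => exact ReflTransGen.refl
  | tail _ hs ih =>
    obtain ⟨l, hl, ht⟩ := hs
    exact ih.tail ⟨l, hl, h1 _ _ _ ht⟩

theorem u0_bwd {A Q Q' V : Type} (j : Q → Q') (tr : Q → A × Bool → Q → Prop)
    (tr' : Q' → A × Bool → Q' → Prop) (h2 : ∀ s l x, tr' (j s) l x → ∃ t, x = j t ∧ tr s l t)
    (E : V → A → V → Prop) (u : V) (s : Q) {y : V × Q'} (h : Reach E tr' (u, j s) y) :
    ∃ t, y.2 = j t ∧ Reach E tr (u, s) (y.1, t) := by
  unfold Reach at h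
  induction h with
  | refl => exact ⟨s, rfl, ReflTransGen.refl⟩
  | @tail b c _ hs ih =>
    obtain ⟨t, ht, hr⟩ := ih
    obtain ⟨l, hl, htr⟩ := hs
    rw [ht] at htr
    obtain ⟨t', ht', htt⟩ := h2 _ _ _ htr
    exact ⟨t', ht', ReflTransGen.tail hr ⟨l, hl, htt⟩⟩

theorem u0_iff {A Q Q' V : Type} (j : Q → Q') (hj : Function.Injective j)
    (tr : Q → A × Bool → Q → Prop)
    (tr' : Q' → A × Bool → Q' → Prop) (h1 : ∀ s l t, tr s l t → tr' (j s) l (j t))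
    (h2 : ∀ s l x, tr' (j s) l x → ∃ t, x = j t ∧ tr s l t)
    (E : V → A → V → Prop) (u v : V) (s t : Q) :
    Reach E tr (u, s) (v, t) ↔ Reach E tr' (u, j s) (v, j t) := by
  constructor
  · intro h
    exact u0_fwd j tr tr' h1 E h
  · intro h
    obtain ⟨t', ht', hr⟩ := u0_bwd j tr tr' h2 E u s h
    rw [hj ht']
    exact hr

theorem pf_U0 (h1 : U_q0_eq) : U_u0_pad := by
  intro A Q Q' j hj n n' r hn hnn tr tr' g1 g2 U
  have : Nonempty (Fin n) := ⟨⟨0, hn⟩⟩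
  have hex : ∀ f : Set ((Fin n × Q) × (Fin n × Q)) × (Fin r → Fin n),
      ∃ f' : Set ((Fin n' × Q') × (Fin n' × Q')) × (Fin r → Fin n'),
        ∀ (V : Type) (E : V → A → V → Prop) (z : Fin r → V),
          (∃ μ : Fin n → V, (∀ e ∈ f.1, Reach E tr (μ e.1.1, e.1.2) (μ e.2.1, e.2.2)) ∧
            ∀ i, μ (f.2 i) = z i) ↔
          ∃ μ : Fin n' → V, (∀ e ∈ f'.1, Reach E tr' (μ e.1.1, e.1.2) (μ e.2.1, e.2.2)) ∧
            ∀ i, μ (f'.2 i) = z i := by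
    rintro ⟨F, o⟩
    obtain ⟨F', π, hF⟩ := h1 (W := Fin n) (I := Fin r) tr'
      {x : (Fin n × Q') × (Fin n × Q') | ∃ y ∈ F, x = ((y.1.1, j y.1.2), (y.2.1, j y.2.2))}
      (fun _ _ => False) o n' (by simpa using hnn)
    refine ⟨(F', fun i => π (o i)), fun V E z => ?_⟩
    have h3 := hF V E z
    constructor
    · rintro ⟨μ, hμ, hz⟩
      refine h3.1 ⟨μ, ?_, fun _ _ h => h.elim, hz⟩
      rintro e ⟨y, hy, rfl⟩
      exact (u0_iff j hj tr tr' g1 g2 E _ _ _ _).1 (hμ y hy)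
    · intro h
      obtain ⟨μ, hμ, -, hz⟩ := h3.2 h
      refine ⟨μ, fun e he => ?_, hz⟩
      exact (u0_iff j hj tr tr' g1 g2 E _ _ _ _).2 (hμ _ ⟨e, he, rfl⟩)
  choose φ hφ using hex
  refine ⟨{f' | ∃ f ∈ U, f' = φ f}, fun V E z => ?_⟩
  unfold USat
  constructor
  · rintro ⟨f, hf, hμ⟩
    exact ⟨φ f, ⟨f, hf, rfl⟩, (hφ f V E z).1 hμ⟩
  · rintro ⟨f', ⟨f, hf, rfl⟩, hμ⟩
    exact ⟨f, hf, (hφ f V E z).2 hμ⟩

end Pool.Agent.H20.SW
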