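import Pool.Agent.H76.SW.T

/-! W2 (stw_modules, MP_d2582e_lc), helper20. -/

namespace Pool.Agent.H20.SW

open Pool.Agent.H76.SW

theorem pf_W2 (h1 : U_a2_descend) (h2 : U_a3_wrap2) (h3 : U_a0_mono) : U_w2_wrap := by
  intro A P Q _ k hk gs hs tr L _ _ T hT ι ho lab
  obtain ⟨T', ι', lab', hT', ho', hl, hb, hsep⟩ := h1 k gs hs tr L T hT ι ho lab
  refine ⟨T', ι', lab', hT', ho', hl, hb, ?_⟩
  intro bd nn δ' hδ'
  obtain ⟨δ, hδ⟩ := h2 k hk gs hs tr (fun a => ι (lab a)) (fun c => ι (T.pt c))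
    (fun c => ι' (T'.pt c)) hsep bd nn δ' hδ'
  refine ⟨δ, h3 gs tr k _ _ _ _ ?_ ?_ _ _ δ hδ⟩
  · unfold WW
    omega
  · unfold WN
    omega

end Pool.Agent.H20.SW
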